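import Pool.Agent.Helper35.CWS.StB

set_option autoImplicit false

namespace Pool.Agent.Helper66.CWS

open Set Topology Metric Pool.Agent.Helper35.CWS

private theorem paste {Z T : Type} [TopologicalSpace Z] [TopologicalSpace T] {D : Set Z} {u v : Z → ℝ}
    (hu : ContinuousOn u D) (hv : ContinuousOn v D) {f g : Z → T}
    (hf : ContinuousOn f {z | z ∈ D ∧ u z ≤ v z}) (hg : ContinuousOn g {z | z ∈ D ∧ v z ≤ u z})
    (hfg : ∀ z ∈ D, u z = v z → f z = g z) :
    ContinuousOn (fun z => if u z ≤ v z then f z else g z) D := by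
  rw [continuousOn_iff_continuous_domRestrict] at hu hv ⊢
  refine continuous_if_le (f := D.domRestrict u) (g := D.domRestrict v) (f' := D.domRestrict f) (g' := D.domRestrict g) hu hv ?_ ?_ ?_
  · exact hf.comp continuous_subtype_val.continuousOn (fun z hz => ⟨z.2, hz⟩)
  · exact hg.comp continuous_subtype_val.continuousOn (fun z hz => ⟨z.2, hz⟩)
  · intro z hz
    exact hfg z.1 z.2 hz

theorem hCOL : StCOL := by
  intro X _ O S W t R ε Ψ x hO hC hW hSF hxO hxS hxW
  obtain ⟨htc, ht0, htS, hRc, hRm, hRt, hR0, hRa⟩ := hC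
  obtain ⟨hsub, hpos, hcont, hmem, hzero, hadd⟩ := hSF
  have hqc : ContinuousOn (fun y => R (t y) y) O := by
    have h1 : ContinuousOn (fun y => ((t y, y) : ℝ × X)) O := htc.prodMk continuousOn_id
    exact hRc.comp h1 (fun y hy => ⟨hy, ht0 y hy, le_rfl⟩)
  have hqO : ∀ y ∈ O, R (t y) y ∈ O := fun y hy => hRm y hy (t y) (ht0 y hy) le_rfl
  have hqS : ∀ y ∈ O, R (t y) y ∈ S := by
    intro y hy
    rw [← htS _ (hqO y hy), hRt y hy (t y) (ht0 y hy) le_rfl, sub_self]
  have hN : IsOpen (O ∩ (fun y => R (t y) y) ⁻¹' W) := hqc.isOpen_inter_preimage hO hW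
  have htx : t x = 0 := (htS x hxO).2 hxS
  have hqx : R (t x) x = x := by rw [htx, hR0 x hxO]
  refine ⟨O ∩ (fun y => R (t y) y) ⁻¹' W, fun s y => if s ≤ t y then R s y else Ψ (s - t y) (R (t y) y), hN,
    ⟨hxO, by simpa [hqx] using hxW⟩, ⟨subset_univ _, hpos, ?_, fun _ _ _ _ => mem_univ _, ?_, ?_⟩, ?_⟩
  · refine paste (u := fun p : ℝ × X => p.1) (v := fun p : ℝ × X => t p.2) continuousOn_fst ?_ ?_ ?_ ?_
    · exact htc.comp continuousOn_snd (fun p hp => hp.2.1)
    · exact hRc.mono (fun p hp => ⟨hp.1.2.1, hp.1.1.1, hp.2⟩)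
    · have h2 : ContinuousOn (fun p : ℝ × X => ((p.1 - t p.2, R (t p.2) p.2) : ℝ × X))
          {p | p ∈ Icc 0 ε ×ˢ (O ∩ (fun y => R (t y) y) ⁻¹' W) ∧ t p.2 ≤ p.1} := by
        refine ContinuousOn.prodMk ?_ ?_
        · exact continuousOn_fst.sub (htc.comp continuousOn_snd (fun p hp => hp.1.2.1))
        · exact hqc.comp continuousOn_snd (fun p hp => hp.1.2.1)
      refine hcont.comp h2 ?_
      intro p hp
      have h3 := ht0 p.2 hp.1.2.1
      exact ⟨⟨by have := hp.2; linarith, by have := hp.1.1.2; linarith⟩, hqS _ hp.1.2.1, hp.1.2.2⟩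
    · intro p hp h
      have h4 : p.1 = t p.2 := h
      show R p.1 p.2 = Ψ (p.1 - t p.2) (R (t p.2) p.2)
      rw [h4, sub_self, hzero _ ⟨hqS _ hp.2.1, hp.2.2⟩]
  · intro y hy
    show (if (0 : ℝ) ≤ t y then R 0 y else Ψ (0 - t y) (R (t y) y)) = y
    rw [if_pos (ht0 y hy.1), hR0 y hy.1]
  · intro y hy s s' hs hs' hss hyN
    have hyO := hy.1
    have hqyS := hqS y hyO
    have hqyW : R (t y) y ∈ W := hy.2
    have hty := ht0 y hyO
    show (if s + s' ≤ t y then R (s + s') y else Ψ (s + s' - t y) (R (t y) y)) =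
      (if s ≤ t (if s' ≤ t y then R s' y else Ψ (s' - t y) (R (t y) y)) then
        R s (if s' ≤ t y then R s' y else Ψ (s' - t y) (R (t y) y)) else
        Ψ (s - t (if s' ≤ t y then R s' y else Ψ (s' - t y) (R (t y) y)))
          (R (t (if s' ≤ t y then R s' y else Ψ (s' - t y) (R (t y) y)))
            (if s' ≤ t y then R s' y else Ψ (s' - t y) (R (t y) y))))
    have hyN' : (if s' ≤ t y then R s' y else Ψ (s' - t y) (R (t y) y)) ∈ O ∩ (fun y => R (t y) y) ⁻¹' W := hyN
    by_cases h1 : s' ≤ t y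
    · simp only [if_pos h1] at hyN' ⊢
      have h2 : t (R s' y) = t y - s' := hRt y hyO s' hs' h1
      have h3 : R (t y - s') (R s' y) = R (t y) y := by
        have h4 := hRa y hyO (t y - s') s' (by linarith) hs' (by linarith)
        rw [sub_add_cancel] at h4
        exact h4.symm
      rw [h2]
      by_cases h5 : s + s' ≤ t y
      · rw [if_pos h5, if_pos (by linarith), hRa y hyO s s' hs hs' h5]
      · rw [if_neg h5, if_neg (by intro h6; exact h5 (by linarith)), h3]
        congr 1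
        ring
    · simp only [if_neg h1] at hyN' ⊢
      have h1' : t y < s' := not_le.mp h1
      have h6 : Ψ (s' - t y) (R (t y) y) ∈ S := hmem _ ⟨hqyS, hqyW⟩ _ ⟨by linarith, by linarith⟩
      have h7 : t (Ψ (s' - t y) (R (t y) y)) = 0 := (htS _ hyN'.1).2 h6
      have h8 : R (t (Ψ (s' - t y) (R (t y) y))) (Ψ (s' - t y) (R (t y) y)) = Ψ (s' - t y) (R (t y) y) := by
        rw [h7, hR0 _ hyN'.1]
      have h9 : Ψ (s' - t y) (R (t y) y) ∈ W := by
        have h10 : R (t (Ψ (s' - t y) (R (t y) y))) (Ψ (s' - t y) (R (t y) y)) ∈ W := hyN'.2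
        rwa [h8] at h10
      rw [h8, h7, if_neg (by intro h11; exact h1 (by linarith))]
      have h12 : s + s' - t y = s + (s' - t y) := by ring
      have h13 : Ψ (s + (s' - t y)) (R (t y) y) = Ψ s (Ψ (s' - t y) (R (t y) y)) :=
        hadd _ ⟨hqyS, hqyW⟩ s (s' - t y) hs (by linarith) (by linarith) ⟨h6, h9⟩
      rw [h12, h13]
      by_cases h14 : s ≤ 0
      · have h15 : s = 0 := le_antisymm h14 hs
        rw [if_pos h14, h15, hR0 _ hyN'.1, hzero _ ⟨h6, h9⟩]
      · rw [if_neg h14, sub_zero]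
  · intro s hs
    show (if s ≤ t x then R s x else Ψ (s - t x) (R (t x) x)) = Ψ s x
    rw [hqx, htx]
    by_cases h1 : s ≤ 0
    · have h2 : s = 0 := le_antisymm h1 hs.1
      rw [if_pos h1, h2, hR0 x hxO, hzero x ⟨hxS, hxW⟩]
    · rw [if_neg h1, sub_zero]

end Pool.Agent.Helper66.CWS
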